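import Mathlib
import Pool.Agent.TH131.WMF.Defs

/-!
# Local Euler factors of smooth projective varieties over local fields: definitions

Fix integers `n` and `d`. The varieties which are considered are the smooth closed subschemes `X`
of degree at most `d` of `ℙ^n_L`, where `L` is a nonarchimedean local field, of characteristic `0`
or of positive characteristic. `K ℓ` is the coefficient field `ℚ_ℓ`.
-/

set_option autoImplicit false

namespace Pool.Agent.TH131.LInd

open Polynomial Pool.Agent.TH131.WMF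

section

variable {K : Type} [Field K]

/-- The operators `f` and `f'` are isomorphic. -/
def IsoOp {U U' : Sp K} (f : Op U) (f' : Op U') : Prop :=
  ∃ e : U ≃ₗ[K] U', ∀ x, e (f x) = f' (e x)

/-- The invariants under a set `I` of operators. -/
def invariants {U : Sp K} (I : Set (Op U)) : Submodule K U where
  carrier := {x | ∀ g ∈ I, g x = x}
  add_mem' hx hy g hg := by rw [map_add, hx g hg, hy g hg]
  zero_mem' g _ := map_zero g
  smul_mem' c x hx g hg := by rw [map_smul, hx g hg]

/-- The space of invariants. -/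
def invSp {U : Sp K} (I : Set (Op U)) : Sp K := ⟨invariants I⟩

/-- The operator on the invariants induced by an operator `f` which preserves the invariants. -/
def invOp {U : Sp K} (I : Set (Op U)) (f : Op U) (h : ∀ x ∈ invariants I, f x ∈ invariants I) :
    Op (invSp I) := f.restrict h

/-- The polynomial `det (1 - f T)`: the reverse of the characteristic polynomial of `f`. -/
noncomputable def detPoly (U : Sp K) [Module.Finite K U] (f : Op U) : K[X] :=
  (LinearMap.charpoly f).reverse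

end

/-- The smooth closed subschemes `X` of degree at most `d` of `ℙ^n_L`, for all nonarchimedean local
fields `L`, with the cohomology groups `H^i(X_L̄, ℚ_ℓ)` for all `ℓ` and `i`. -/
structure LocalVarieties (K : ℕ → Type) [∀ ℓ, Field (K ℓ)] where
  Obj : Type
  /-- the residue characteristic of `L` -/
  p : Obj → ℕ
  /-- `L` has positive characteristic -/
  EqualChar : Obj → Prop
  /-- `H^i(X_L̄, ℚ_ℓ)` -/
  H : Obj → ∀ ℓ : ℕ, ℕ → Sp (K ℓ)
  finite : ∀ X ℓ i, Module.Finite (K ℓ) (H X ℓ i)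
  /-- the operators on `H^i(X_L̄, ℚ_ℓ)` given by the elements of the inertia group -/
  inertia : ∀ X ℓ i, Set (Op (H X ℓ i))
  /-- the operator on `H^i(X_L̄, ℚ_ℓ)` given by a lift of the geometric Frobenius -/
  frob : ∀ X ℓ i, Op (H X ℓ i)
  frob_mem : ∀ X ℓ i, ∀ x ∈ invariants (inertia X ℓ i), frob X ℓ i x ∈ invariants (inertia X ℓ i)

attribute [instance] LocalVarieties.finite

variable {K : ℕ → Type} [∀ ℓ, Field (K ℓ)]

namespace LocalVarieties

variable (𝒮 : LocalVarieties K)

/-- The invariants under the inertia group in `H^i(X_L̄, ℚ_ℓ)`. -/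
def V (X : 𝒮.Obj) (ℓ i : ℕ) : Sp (K ℓ) := invSp (𝒮.inertia X ℓ i)

/-- The Frobenius operator on the invariants. -/
def F (X : 𝒮.Obj) (ℓ i : ℕ) : Op (𝒮.V X ℓ i) :=
  invOp (𝒮.inertia X ℓ i) (𝒮.frob X ℓ i) (𝒮.frob_mem X ℓ i)

instance (X : 𝒮.Obj) (ℓ i : ℕ) : Module.Finite (K ℓ) (𝒮.V X ℓ i) :=
  inferInstanceAs (Module.Finite (K ℓ) (invariants (𝒮.inertia X ℓ i)))

/-- The local factor `det (1 - F T)`, where `F` is the Frobenius operator on the invariants. -/
noncomputable def factor (X : 𝒮.Obj) (ℓ i : ℕ) : (K ℓ)[X] :=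
  detPoly (𝒮.V X ℓ i) (𝒮.F X ℓ i)

/-- The local factor of `H^i(X)` has integral coefficients and does not depend on the prime `ℓ`
different from the residue characteristic. -/
def IsIndependent (X : 𝒮.Obj) (i : ℕ) : Prop :=
  ∃ P : ℤ[X], ∀ ℓ : ℕ, ℓ.Prime → ℓ ≠ 𝒮.p X → 𝒮.factor X ℓ i = P.map (Int.castRingHom (K ℓ))

/-- The invariants with their Frobenius operators are isomorphic for `X` and `Y`. -/
def Same (X Y : 𝒮.Obj) (ℓ i : ℕ) : Prop := IsoOp (𝒮.F X ℓ i) (𝒮.F Y ℓ i)

/-- Independence of `ℓ` in equal characteristic (Deligne, Terasoma, Lu–Zheng). -/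
def EqualCharacteristic : Prop := ∀ X, 𝒮.EqualChar X → ∀ i, 𝒮.IsIndependent X i

/-- Transfer: if the prime `p` does not divide `M₀`, then for all `X` over a local field with
residue characteristic `p` there is some `Y` over a local field of characteristic `p` with the same
cohomology, for all `ℓ` and `i`. -/
def Transfer (M₀ : ℕ) : Prop :=
  ∀ X, ¬ 𝒮.p X ∣ M₀ → ∃ Y, 𝒮.EqualChar Y ∧ 𝒮.p Y = 𝒮.p X ∧
    ∀ ℓ : ℕ, ℓ.Prime → ℓ ≠ 𝒮.p X → ∀ i, 𝒮.Same X Y ℓ i

end LocalVarieties

/-- The point `t` with coordinates in the ring `R` is not a zero of the polynomial `Δ`. -/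
def IsPoint {r : ℕ} (Δ : MvPolynomial (Fin r) ℤ) {R : Type} [CommRing R] (t : Fin r → R) : Prop :=
  MvPolynomial.eval₂ (Int.castRingHom R) t Δ ≠ 0

/-- A smooth projective family `𝒳 → 𝔸^r_ℚ ∖ {Δ = 0}` with an embedding into `ℙ^n`; here the fibres
over the points with coordinates in `ℤ_p`, for all primes `p`. -/
structure AffineFamily (𝒮 : LocalVarieties K) where
  r : ℕ
  Δ : MvPolynomial (Fin r) ℤ
  fibre : ∀ (p : ℕ) [Fact p.Prime], (Fin r → ℤ_[p]) → 𝒮.Obj
  p_fibre : ∀ (p : ℕ) [Fact p.Prime] (t : Fin r → ℤ_[p]), IsPoint Δ t → 𝒮.p (fibre p t) = p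

namespace AffineFamily

variable {𝒮 : LocalVarieties K} (𝒳 : AffineFamily 𝒮)

/-- The cohomology is locally constant as a representation of the Galois group of `ℚ_p`, on a
neighbourhood which does not depend on `ℓ` and `i` (Kisin, Ito). -/
def IsLocallyConstant : Prop :=
  ∀ (p : ℕ) [Fact p.Prime] (t : Fin 𝒳.r → ℤ_[p]), IsPoint 𝒳.Δ t →
    ∃ n : ℕ, ∀ t' : Fin 𝒳.r → ℤ_[p], IsPoint 𝒳.Δ t' → (∀ i, (p : ℤ_[p]) ^ n ∣ t' i - t i) →
      ∀ ℓ : ℕ, ℓ.Prime → ℓ ≠ p → ∀ i, 𝒮.Same (𝒳.fibre p t) (𝒳.fibre p t') ℓ i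

/-- The local factors at `p` of the fibre over `t` have integral coefficients and do not depend on
`ℓ`. -/
def Holds (p : ℕ) [Fact p.Prime] (t : Fin 𝒳.r → ℤ_[p]) : Prop :=
  ∀ i, 𝒮.IsIndependent (𝒳.fibre p t) i

/-- The local factors at all primes `p` of the fibre over a point `t` with coordinates in `ℤ` have
integral coefficients and do not depend on `ℓ`. -/
def HoldsEverywhere (t : Fin 𝒳.r → ℤ) : Prop :=
  ∀ (p : ℕ) [Fact p.Prime], 𝒳.Holds p fun i => (t i : ℤ_[p])

end AffineFamily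

end Pool.Agent.TH131.LInd
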