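import Mathlib
import Pool.Agent.TH131.LIndF.Defs

set_option autoImplicit false

namespace Pool.Agent.TH131.LInd

open Polynomial Pool.Agent.TH131.WMF

variable {K : ℕ → Type} [∀ ℓ, Field (K ℓ)] {𝒮 : LocalVarieties K}

lemma factor_eq_of_same {X Y : 𝒮.Obj} {ℓ i : ℕ} (h : 𝒮.Same X Y ℓ i) :
    𝒮.factor Y ℓ i = 𝒮.factor X ℓ i := by
  obtain ⟨e, he⟩ := h
  have h1 : 𝒮.F Y ℓ i = e.conj (𝒮.F X ℓ i) := by
    apply LinearMap.ext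
    intro y
    rw [LinearEquiv.conj_apply_apply, he, e.apply_symm_apply]
  unfold LocalVarieties.factor detPoly
  rw [h1, LinearEquiv.charpoly_conj]

lemma isIndependent_of_same {X Y : 𝒮.Obj} {i : ℕ} (hp : 𝒮.p Y = 𝒮.p X)
    (h : ∀ ℓ : ℕ, ℓ.Prime → ℓ ≠ 𝒮.p X → 𝒮.Same X Y ℓ i) :
    𝒮.IsIndependent X i ↔ 𝒮.IsIndependent Y i := by
  constructor
  · rintro ⟨P, hP⟩
    refine ⟨P, fun ℓ hℓ hne => ?_⟩
    rw [hp] at hne
    rw [factor_eq_of_same (h ℓ hℓ hne), hP ℓ hℓ hne]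
  · rintro ⟨P, hP⟩
    refine ⟨P, fun ℓ hℓ hne => ?_⟩
    rw [← factor_eq_of_same (h ℓ hℓ hne), hP ℓ hℓ (by rwa [hp])]

lemma isPoint_intCast {r : ℕ} {Δ : MvPolynomial (Fin r) ℤ} {p : ℕ} [Fact p.Prime]
    {t : Fin r → ℤ} (h : IsPoint Δ t) : IsPoint Δ fun i => (t i : ℤ_[p]) := by
  have h1 : MvPolynomial.eval₂ (Int.castRingHom ℤ_[p]) (fun i => (t i : ℤ_[p])) Δ =
      Int.castRingHom ℤ_[p] (MvPolynomial.eval₂ (Int.castRingHom ℤ) t Δ) := by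
    rw [MvPolynomial.eval₂_comp_left]
    congr 1
  unfold IsPoint at h ⊢
  rw [h1]
  intro h2
  apply h
  have h3 : ((MvPolynomial.eval₂ (Int.castRingHom ℤ) t Δ : ℤ) : ℤ_[p]) = 0 := h2
  exact_mod_cast h3

theorem residue_class {M₀ : ℕ} (hM : 0 < M₀) (hE : 𝒮.EqualCharacteristic) (hT : 𝒮.Transfer M₀)
    (𝒳 : AffineFamily 𝒮) (hk : 𝒳.IsLocallyConstant)
    (hg : ∀ (p : ℕ) [Fact p.Prime], ∃ t : Fin 𝒳.r → ℤ_[p], IsPoint 𝒳.Δ t ∧ 𝒳.Holds p t) :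
    ∃ (m : ℕ) (a : Fin 𝒳.r → ℤ), 0 < m ∧ ∀ t : Fin 𝒳.r → ℤ, (∀ i, t i ≡ a i [ZMOD m]) →
      IsPoint 𝒳.Δ t → 𝒳.HoldsEverywhere t := by
  classical
  -- congruences for one prime
  have hloc : ∀ p : ℕ, p ∈ M₀.primeFactors → ∃ (n : ℕ) (a : Fin 𝒳.r → ℕ),
      ∀ t : Fin 𝒳.r → ℤ, (∀ i, t i ≡ a i [ZMOD (p ^ n : ℕ)]) → IsPoint 𝒳.Δ t →
        ∀ hp : Fact p.Prime, @AffineFamily.Holds K _ 𝒮 𝒳 p hp fun i => (t i : ℤ_[p]) := by
    intro p hp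
    have : Fact p.Prime := ⟨(Nat.mem_primeFactors.1 hp).1⟩
    obtain ⟨t₀, ht₀, hpure⟩ := hg p
    obtain ⟨n, hn⟩ := hk p t₀ ht₀
    refine ⟨n, fun i => PadicInt.appr (t₀ i) n, fun t ht hΔ _ i => ?_⟩
    have hΔ' : IsPoint 𝒳.Δ (fun i => (t i : ℤ_[p])) := isPoint_intCast hΔ
    have hnear := hn (fun i => (t i : ℤ_[p])) hΔ' (fun i => by
      have h1 := PadicInt.appr_spec n (t₀ i)
      rw [Ideal.mem_span_singleton] at h1
      have h2 : ((p ^ n : ℕ) : ℤ) ∣ (PadicInt.appr (t₀ i) n : ℤ) - t i := (ht i).dvd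
      obtain ⟨c, hc⟩ := h2
      have h3 : (p : ℤ_[p]) ^ n ∣ ((PadicInt.appr (t₀ i) n : ℕ) : ℤ_[p]) - (t i : ℤ_[p]) := by
        refine ⟨(c : ℤ_[p]), ?_⟩
        have := congrArg (fun z : ℤ => (z : ℤ_[p])) hc
        push_cast at this
        exact this
      have h4 : (t i : ℤ_[p]) - t₀ i = -((t₀ i - (PadicInt.appr (t₀ i) n : ℕ)) +
          (((PadicInt.appr (t₀ i) n : ℕ) : ℤ_[p]) - (t i : ℤ_[p]))) := by ring
      rw [h4, dvd_neg]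
      exact dvd_add h1 h3)
    have hp₀ := 𝒳.p_fibre p t₀ ht₀
    have hp₁ := 𝒳.p_fibre p _ hΔ'
    exact (isIndependent_of_same (hp₁.trans hp₀.symm)
      fun ℓ hℓ hne => hnear ℓ hℓ (by rwa [hp₀] at hne) i).1 (hpure i)
  choose! n a hna using hloc
  let m : ℕ := ∏ p ∈ M₀.primeFactors, p ^ n p
  have hpos : ∀ p ∈ M₀.primeFactors, p ^ n p ≠ 0 := fun p hp =>
    pow_ne_zero _ (Nat.mem_primeFactors.1 hp).1.ne_zero
  have hcop : Set.Pairwise (M₀.primeFactors : Set ℕ)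
      (Function.onFun Nat.Coprime fun p => p ^ n p) := by
    intro p hp p' hp' hne
    exact Nat.Coprime.pow _ _ ((Nat.coprime_primes (Nat.mem_primeFactors.1 hp).1
      (Nat.mem_primeFactors.1 hp').1).2 hne)
  let A : Fin 𝒳.r → ℕ := fun i =>
    (Nat.chineseRemainderOfFinset (fun p => a p i) (fun p => p ^ n p) M₀.primeFactors hpos hcop).1
  have hA : ∀ i, ∀ p ∈ M₀.primeFactors, A i ≡ a p i [MOD p ^ n p] := fun i =>
    (Nat.chineseRemainderOfFinset (fun p => a p i) (fun p => p ^ n p) M₀.primeFactors hpos hcop).2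
  refine ⟨m, fun i => A i, Nat.pos_of_ne_zero (Finset.prod_ne_zero_iff.2 hpos),
    fun t ht hΔ p hp => ?_⟩
  have hΔ' : IsPoint 𝒳.Δ (fun i => (t i : ℤ_[p])) := isPoint_intCast hΔ
  have hpX := 𝒳.p_fibre p _ hΔ'
  by_cases hpM : p ∣ M₀
  · have hpM' : p ∈ M₀.primeFactors := Nat.mem_primeFactors.2 ⟨hp.out, hpM, hM.ne'⟩
    refine hna p hpM' t (fun i => ?_) hΔ hp
    have h1 : t i ≡ A i [ZMOD (p ^ n p : ℕ)] := (ht i).of_dvd (by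
      exact_mod_cast Finset.dvd_prod_of_mem (fun p => p ^ n p) hpM')
    exact h1.trans (Int.natCast_modEq_iff.2 (hA i p hpM'))
  · intro i
    obtain ⟨Y, hY, hpY, hsame⟩ := hT _ (by rwa [hpX] : ¬ 𝒮.p (𝒳.fibre p fun i => (t i : ℤ_[p])) ∣ M₀)
    exact (isIndependent_of_same hpY fun ℓ hℓ hne => hsame ℓ hℓ hne i).2 (hE Y hY i)

end Pool.Agent.TH131.LInd
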